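import Mathlib

namespace Pool.Agent.Results.MP_6a2cdd_al.Counter

/-- relators of the right-angled Coxeter group: `u²` and `[u,v]` for edges `{u,v}` -/
def rels {V : Type} (Γ : SimpleGraph V) : Set (FreeGroup V) :=
  {r | (∃ u, r = FreeGroup.of u * FreeGroup.of u) ∨
    ∃ u v, Γ.Adj u v ∧ r = FreeGroup.of u * FreeGroup.of v * (FreeGroup.of u)⁻¹ * (FreeGroup.of v)⁻¹}

/-- the right-angled Coxeter group `C(Γ)` -/
abbrev C {V : Type} (Γ : SimpleGraph V) : Type := PresentedGroup (rels Γ)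

/-- a reflection is a conjugate of a standard generator -/
def IsRefl {V : Type} (Γ : SimpleGraph V) (r : C Γ) : Prop :=
  ∃ (g : C Γ) (u : V), r = g * PresentedGroup.of u * g⁻¹

/-- a generalised reflection is a product of `k ≥ 1` distinct pairwise commuting reflections -/
def IsGenRefl {V : Type} (Γ : SimpleGraph V) (s : C Γ) : Prop :=
  ∃ l : List (C Γ), l ≠ [] ∧ (∀ r ∈ l, IsRefl Γ r) ∧ l.Pairwise (fun x y => x ≠ y ∧ Commute x y) ∧
    s = l.prod

/-- `H` is isomorphic to `C(Δ)` for some (not necessarily finite) simplicial graph `Δ` -/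
def IsRACG (H : Type) [Group H] : Prop :=
  ∃ (W : Type) (Δ : SimpleGraph W), Nonempty (H ≃* C Δ)

section basic
variable {V : Type} (Γ : SimpleGraph V)

lemma sq_of (u : V) : (PresentedGroup.of u : C Γ) * PresentedGroup.of u = 1 := by
  have := PresentedGroup.one_of_mem (rels := rels Γ) (Or.inl ⟨u, rfl⟩)
  rw [map_mul] at this
  exact this

lemma comm_of {u v : V} (h : Γ.Adj u v) :
    Commute (PresentedGroup.of u : C Γ) (PresentedGroup.of v) := by
  have := PresentedGroup.one_of_mem (rels := rels Γ) (Or.inr ⟨u, v, h, rfl⟩)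
  simp only [map_mul, map_inv] at this
  exact commutatorElement_eq_one_iff_commute.1 this

/-- homomorphism out of `C Γ` -/
def lift {G : Type} [Group G] (f : V → G) (h1 : ∀ u, f u * f u = 1)
    (h2 : ∀ u v, Γ.Adj u v → Commute (f u) (f v)) : C Γ →* G :=
  PresentedGroup.toGroup (f := f) (by
    rintro r (⟨u, rfl⟩ | ⟨u, v, h, rfl⟩)
    · simp [h1]
    · simp only [map_mul, map_inv, FreeGroup.lift_apply_of]
      exact commutatorElement_eq_one_iff_commute.2 (h2 u v h))

lemma lift_of {G : Type} [Group G] (f : V → G) (h1 : ∀ u, f u * f u = 1)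
    (h2 : ∀ u v, Γ.Adj u v → Commute (f u) (f v)) (u : V) :
    lift Γ f h1 h2 (PresentedGroup.of u) = f u := PresentedGroup.toGroup.of _

open Classical in
/-- the character that sees the parity of the letter `u` -/
noncomputable def chi (u : V) : C Γ →* ℤˣ :=
  lift Γ (fun v => if v = u then -1 else 1) (fun v => by split_ifs <;> simp)
    (fun _ _ _ => Commute.all _ _)

open Classical in
lemma chi_of (u v : V) : chi Γ u (PresentedGroup.of v) = if v = u then -1 else 1 := lift_of _ _ _ _ _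

lemma of_ne_one (u : V) : (PresentedGroup.of u : C Γ) ≠ 1 := by
  intro h
  have := chi_of Γ u u
  rw [h, map_one, if_pos rfl] at this
  exact absurd this (by decide)

lemma of_inj {u v : V} (h : (PresentedGroup.of u : C Γ) = PresentedGroup.of v) : u = v := by
  by_contra hne
  have h1 := chi_of Γ u u
  have h2 := chi_of Γ u v
  rw [h, h2, if_pos rfl, if_neg (Ne.symm hne)] at h1
  exact absurd h1 (by decide)

end basic

lemma hcl : ∀ p q x y : ℤˣ × ℤˣ × ℤˣ, (x = 1 ∨ x = p ∨ x = q ∨ x = p * q) →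
    (y = 1 ∨ y = p ∨ y = q ∨ y = p * q) →
    (x * y = 1 ∨ x * y = p ∨ x * y = q ∨ x * y = p * q) := by
  have h : ∀ p q : ℤˣ × ℤˣ × ℤˣ, ∀ x ∈ [1, p, q, p * q], ∀ y ∈ [1, p, q, p * q],
      x * y ∈ [1, p, q, p * q] := by decide +kernel
  intro p q x y hx hy
  simpa using h p q x (by simpa using hx) y (by simpa using hy)

lemma hinv : ∀ x : ℤˣ × ℤˣ × ℤˣ, x⁻¹ = x := by decide +kernel

lemma hno : ∀ p q : ℤˣ × ℤˣ × ℤˣ, ∃ x, ¬ (x = 1 ∨ x = p ∨ x = q ∨ x = p * q) := by decide +kernel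

/-- A group in which commuting involutions are equal, products of three involutions square to one,
and which has three independent sign characters, is not a right-angled Coxeter group. -/
lemma not_racg (H : Type) [Group H]
    (h1 : ∀ x y : H, x ≠ 1 → y ≠ 1 → x * x = 1 → y * y = 1 → Commute x y → x = y)
    (h2 : ∀ x y z : H, x ≠ 1 → y ≠ 1 → z ≠ 1 → x * x = 1 → y * y = 1 → z * z = 1 →
      (x * y * z) * (x * y * z) = 1)
    (h3 : ∃ φ : H →* ℤˣ × ℤˣ × ℤˣ, Function.Surjective φ) : ¬ IsRACG H := by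
  classical
  rintro ⟨W, Δ, ⟨e⟩⟩
  have ne1 : ∀ u : W, e.symm (PresentedGroup.of u) ≠ 1 := fun u h =>
    of_ne_one Δ u (by simpa using h)
  have sq : ∀ u : W, e.symm (PresentedGroup.of u) * e.symm (PresentedGroup.of u) = 1 := fun u => by
    rw [← map_mul, sq_of, map_one]
  have noadj : ∀ u v, ¬ Δ.Adj u v := fun u v h => by
    have := h1 _ _ (ne1 u) (ne1 v) (sq u) (sq v) ((comm_of Δ h).map e.symm)
    exact h.ne (of_inj Δ (e.symm.injective this))
  have no3 : ∀ u v w : W, u ≠ v → u ≠ w → v ≠ w → False := fun u v w a b c => by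
    have := h2 _ _ _ (ne1 u) (ne1 v) (ne1 w) (sq u) (sq v) (sq w)
    rw [← map_mul, ← map_mul, ← map_mul, ← map_one e.symm] at this
    have h := e.symm.injective this
    let f : W → Equiv.Perm (Fin 4) := fun x =>
      if x = u then Equiv.swap 0 1 else if x = v then Equiv.swap 1 2 else Equiv.swap 2 3
    have hf : ∀ x, f x * f x = 1 := fun x => by
      simp only [f]; split_ifs <;> simp
    have h' := congrArg (lift Δ f hf (fun x y hxy => absurd hxy (noadj x y))) h
    simp only [map_mul, lift_of, map_one, f, if_pos, if_neg a.symm, if_neg b.symm,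
      if_neg c.symm] at h'
    exact absurd h' (by decide)
  obtain ⟨φ, hφ⟩ := h3
  have two : ∃ p q : ℤˣ × ℤˣ × ℤˣ, ∀ u : W, φ (e.symm (PresentedGroup.of u)) = p ∨
      φ (e.symm (PresentedGroup.of u)) = q := by
    by_cases hW : ∃ u v : W, u ≠ v
    · obtain ⟨u, v, huv⟩ := hW
      refine ⟨φ (e.symm (PresentedGroup.of u)), φ (e.symm (PresentedGroup.of v)), fun w => ?_⟩
      by_cases a : u = w
      · exact Or.inl (by rw [a])
      by_cases b : v = w
      · exact Or.inr (by rw [b])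
      exact (no3 u v w huv a b).elim
    · push Not at hW
      by_cases hn : Nonempty W
      · obtain ⟨u⟩ := hn
        exact ⟨φ (e.symm (PresentedGroup.of u)), 1, fun w => Or.inl (by rw [hW u w])⟩
      · exact ⟨1, 1, fun w => (hn ⟨w⟩).elim⟩
  obtain ⟨p, q, hpq⟩ := two
  have key : ∀ g : C Δ, φ (e.symm g) = 1 ∨ φ (e.symm g) = p ∨ φ (e.symm g) = q ∨
      φ (e.symm g) = p * q := by
    intro g
    have hg : g ∈ Subgroup.closure (Set.range (PresentedGroup.of : W → C Δ)) := by
      rw [PresentedGroup.closure_range_of]; trivial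
    induction hg using Subgroup.closure_induction with
    | mem x hx =>
      obtain ⟨u, rfl⟩ := hx
      rcases hpq u with h | h
      · exact Or.inr (Or.inl h)
      · exact Or.inr (Or.inr (Or.inl h))
    | one => left; simp
    | mul x y _ _ hx hy => rw [map_mul, map_mul]; exact hcl _ _ _ _ hx hy
    | inv x _ hx => rw [map_inv, map_inv, hinv]; exact hx
  obtain ⟨x, hx⟩ := hno p q
  obtain ⟨y, rfl⟩ := hφ x
  have := key (e y)
  rw [e.symm_apply_apply] at this
  exact hx this

/-- the reflection `x ↦ k - x` of the integers -/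
def rf (k : ℤ) : Equiv.Perm ℤ := Equiv.subLeft k

lemma rf_sq (k : ℤ) : rf k * rf k = 1 := by
  ext x; simp [rf]

lemma rf_pow (i : ℤ) : ((rf 1 * rf 0) ^ i) 0 = i := by
  have : rf 1 * rf 0 = Equiv.addLeft (1 : ℤ) := by
    ext x; simp [rf]
  rw [this]
  have h : ∀ i : ℤ, ∀ x : ℤ, ((Equiv.addLeft (1 : ℤ)) ^ i) x = i + x := by
    intro i
    induction i using Int.induction_on with
    | zero => simp
    | succ n ih => intro x; rw [zpow_add_one, Equiv.Perm.mul_apply, ih]; simp; ring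
    | pred n ih =>
      intro x; rw [zpow_sub_one, Equiv.Perm.mul_apply, ih]
      simp [Equiv.Perm.inv_def]; ring
  rw [h, add_zero]

lemma abstr {G : Type} [Group G] (s t r : G) (st : Commute s t) (rr : r * r = 1)
    (rs : r * s = s⁻¹ * r) (rt : r * t = t⁻¹ * r)
    (inj : ∀ i j : ℤ, s ^ i * t ^ j = 1 → i = 0 ∧ j = 0) (H : Subgroup G)
    (S : Set G) (hS : ∀ x ∈ S, ∃ i j : ℤ, x = s ^ i * t ^ j * r) (hH : H = Subgroup.closure S)
    (h3 : ∃ φ : H →* ℤˣ × ℤˣ × ℤˣ, Function.Surjective φ) : ¬ IsRACG H := by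
  let τ : ℤ → ℤ → G := fun i j => s ^ i * t ^ j
  have add : ∀ i j k l, τ i j * τ k l = τ (i + k) (j + l) := by
    intro i j k l
    simp only [τ, zpow_add]
    have := (st.zpow_zpow k j).eq
    calc s ^ i * t ^ j * (s ^ k * t ^ l) = s ^ i * (t ^ j * s ^ k) * t ^ l := by group
      _ = _ := by rw [← this]; group
  have neg : ∀ i j, r * τ i j = τ (-i) (-j) * r := by
    intro i j
    have h1 : SemiconjBy r (s ^ i) (s⁻¹ ^ i) := SemiconjBy.zpow_right rs i
    have h2 : SemiconjBy r (t ^ j) (t⁻¹ ^ j) := SemiconjBy.zpow_right rt j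
    have := (h1.mul_right h2).eq
    simpa [τ, inv_zpow'] using this
  have mulr : ∀ i j k l, τ i j * r * (τ k l * r) = τ (i - k) (j - l) := by
    intro i j k l
    calc τ i j * r * (τ k l * r) = τ i j * (r * τ k l) * r := by group
      _ = τ i j * τ (-k) (-l) * (r * r) := by rw [neg]; group
      _ = _ := by rw [rr, mul_one, add]; rfl
  have z : τ 0 0 = 1 := by simp [τ]
  have form : ∀ x ∈ H, (∃ i j, x = τ i j) ∨ ∃ i j, x = τ i j * r := by
    intro x hx
    rw [hH] at hx
    induction hx using Subgroup.closure_induction with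
    | mem x hx => exact Or.inr (hS x hx)
    | one => exact Or.inl ⟨0, 0, z.symm⟩
    | mul x y _ _ hx hy =>
      rcases hx with ⟨i, j, rfl⟩ | ⟨i, j, rfl⟩ <;> rcases hy with ⟨k, l, rfl⟩ | ⟨k, l, rfl⟩
      · exact Or.inl ⟨_, _, add _ _ _ _⟩
      · exact Or.inr ⟨_, _, by rw [← mul_assoc, add]⟩
      · exact Or.inr ⟨_, _, by rw [mul_assoc, neg, ← mul_assoc, add]⟩
      · exact Or.inl ⟨_, _, mulr _ _ _ _⟩
    | inv x _ hx =>
      rcases hx with ⟨i, j, rfl⟩ | ⟨i, j, rfl⟩
      · exact Or.inl ⟨-i, -j, inv_eq_of_mul_eq_one_right (by rw [add]; simpa using z)⟩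
      · exact Or.inr ⟨i, j, inv_eq_of_mul_eq_one_right (by rw [mulr]; simpa using z)⟩
  have invol : ∀ x : H, x ≠ 1 → x * x = 1 → ∃ i j, (x : G) = τ i j * r := by
    intro x h1 h2
    rcases form x x.2 with ⟨i, j, h⟩ | h
    · have h3 : (x : G) * x = 1 := by exact_mod_cast h2
      rw [h, add] at h3
      obtain ⟨a, b⟩ := inj _ _ h3
      have a' : i = 0 := by omega
      have b' : j = 0 := by omega
      rw [a', b', z] at h
      exact absurd (Subtype.ext h) h1
    · exact h
  refine not_racg H ?_ ?_ h3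
  · intro x y a b c d e
    obtain ⟨i, j, hx⟩ := invol x a c
    obtain ⟨k, l, hy⟩ := invol y b d
    have e1 : (x : G) * y = y * x := by exact_mod_cast e.eq
    have e2 : (x : G) * y * (x * y) = 1 := by
      have c' : (x : G) * x = 1 := by exact_mod_cast c
      have d' : (y : G) * y = 1 := by exact_mod_cast d
      calc (x : G) * y * (x * y) = x * (y * x) * y := by group
        _ = (x * x) * (y * y) := by rw [← e1]; group
        _ = 1 := by rw [c', d', one_mul]
    rw [hx, hy, mulr, add] at e2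
    obtain ⟨a, b⟩ := inj _ _ e2
    have a' : i = k := by omega
    have b' : j = l := by omega
    apply Subtype.ext
    rw [hx, hy, a', b']
  · intro x y w a b c d e f
    obtain ⟨i, j, hx⟩ := invol x a d
    obtain ⟨k, l, hy⟩ := invol y b e
    obtain ⟨m, n, hw⟩ := invol w c f
    apply Subtype.ext
    push_cast
    rw [hx, hy, hw, mulr, ← mul_assoc (τ _ _), add, mulr]
    simpa using z

lemma square {V : Type} (Γ : SimpleGraph V) (a b c d : V) (hab : a ≠ b) (hcd : c ≠ d)
    (nab : ¬ Γ.Adj a b) (ncd : ¬ Γ.Adj c d) (ac : Γ.Adj a c) (ad : Γ.Adj a d) (bc : Γ.Adj b c)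
    (bd : Γ.Adj b d) :
    ¬ IsRACG (Subgroup.closure ({PresentedGroup.of a * PresentedGroup.of c,
      PresentedGroup.of a * PresentedGroup.of d,
      PresentedGroup.of b * PresentedGroup.of c} : Set (C Γ))) := by
  classical
  have two : ∀ a b : V, a ≠ b → ¬ Γ.Adj a b → ∃ ψ : C Γ →* Equiv.Perm ℤ,
      ψ (PresentedGroup.of a) = rf 0 ∧ ψ (PresentedGroup.of b) = rf 1 ∧
      ∀ v, v ≠ a → v ≠ b → ψ (PresentedGroup.of v) = 1 := by
    intro a b hab nab
    refine ⟨lift Γ (fun v => if v = a then rf 0 else if v = b then rf 1 else 1) ?_ ?_, ?_, ?_, ?_⟩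
    · intro u; split_ifs <;> simp [rf_sq]
    · intro u v huv
      split_ifs with h1 h2 h3 h4 h5 h6 <;> try simp
      · subst h1 h3; exact absurd huv nab
      · subst h4 h5; exact absurd huv.symm nab
    · rw [lift_of, if_pos rfl]
    · rw [lift_of, if_neg hab.symm, if_pos rfl]
    · intro v h1 h2; rw [lift_of, if_neg h1, if_neg h2]
  obtain ⟨ψ, ψa, ψb, ψo⟩ := two a b hab nab
  obtain ⟨θ, θc, θd, θo⟩ := two c d hcd ncd
  have ψc := ψo c ac.ne' bc.ne'
  have ψd := ψo d ad.ne' bd.ne'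
  have θa := θo a ac.ne ad.ne
  have θb := θo b bc.ne bd.ne
  have χ : ∀ u v : V, chi Γ u (PresentedGroup.of v) = if v = u then -1 else 1 := chi_of Γ
  have AA := sq_of Γ a
  have BB := sq_of Γ b
  have PP := sq_of Γ c
  have QQ := sq_of Γ d
  have AP := (comm_of Γ ac)
  have AQ := (comm_of Γ ad)
  have BP := (comm_of Γ bc)
  have BQ := (comm_of Γ bd)
  have χ1 := χ a a
  have χ2 := χ a b
  have χ3 := χ a c
  have χ4 := χ a d
  have χ5 := χ b a
  have χ6 := χ b b
  have χ7 := χ b c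
  have χ8 := χ b d
  have χ9 := χ d a
  have χ10 := χ d b
  have χ11 := χ d c
  have χ12 := χ d d
  simp only [if_true, if_neg hab, if_neg hab.symm, if_neg ac.ne', if_neg ad.ne', if_neg bc.ne',
    if_neg bd.ne', if_neg ad.ne, if_neg bd.ne, if_neg hcd] at χ1 χ2 χ3 χ4 χ5 χ6 χ7 χ8 χ9 χ10 χ11 χ12
  generalize (PresentedGroup.of a : C Γ) = A at *
  generalize (PresentedGroup.of b : C Γ) = B at *
  generalize (PresentedGroup.of c : C Γ) = P at *
  generalize (PresentedGroup.of d : C Γ) = Q at *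
  have Ai : A⁻¹ = A := inv_eq_of_mul_eq_one_right AA
  have Bi : B⁻¹ = B := inv_eq_of_mul_eq_one_right BB
  have Pi : P⁻¹ = P := inv_eq_of_mul_eq_one_right PP
  have Qi : Q⁻¹ = Q := inv_eq_of_mul_eq_one_right QQ
  refine abstr (B * A) (Q * P) (A * P)
    (Commute.mul_left (Commute.mul_right BQ BP) (Commute.mul_right AQ AP)) ?_ ?_ ?_ ?_ _ _ ?_ rfl ?_
  · calc A * P * (A * P) = A * (P * A) * P := by group
      _ = (A * A) * (P * P) := by rw [← AP.eq]; group
      _ = 1 := by rw [AA, PP, one_mul]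
  · rw [mul_inv_rev, Ai, Bi]
    calc A * P * (B * A) = A * (P * B) * A := by group
      _ = A * B * (P * A) := by rw [← BP.eq]; group
      _ = _ := by rw [← AP.eq]
  · rw [mul_inv_rev, Pi, Qi]
    calc A * P * (Q * P) = P * (A * Q) * P := by rw [AP.eq]; group
      _ = _ := by rw [AQ.eq]; group
  · intro i j h
    have h1 := congrArg (fun g => ψ g 0) h
    have h2 := congrArg (fun g => θ g 0) h
    simp only [map_mul, map_zpow, ψa, ψb, ψc, ψd, θa, θb, θc, θd, mul_one, one_mul, one_zpow,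
      map_one, rf_pow, Equiv.Perm.coe_one, id] at h1 h2
    exact ⟨h1, h2⟩
  · rintro x (rfl | rfl | rfl)
    · exact ⟨0, 0, by simp⟩
    · refine ⟨0, 1, ?_⟩
      simp only [zpow_zero, zpow_one, one_mul]
      calc A * Q = Q * A * (P * P) := by rw [AQ.eq, PP, mul_one]
        _ = Q * (A * P) * P := by group
        _ = Q * (P * A) * P := by rw [AP.eq]
        _ = _ := by group
    · refine ⟨1, 0, ?_⟩
      simp only [zpow_zero, zpow_one, mul_one]
      calc B * P = B * (A * A) * P := by rw [AA, mul_one]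
        _ = _ := by group
  · refine ⟨((chi Γ a).prod ((chi Γ b).prod (chi Γ d))).comp (Subgroup.subtype _), ?_⟩
    rw [← MonoidHom.range_eq_top, MonoidHom.range_comp, Subgroup.range_subtype,
      MonoidHom.map_closure]
    simp only [Set.image_insert_eq, Set.image_singleton, MonoidHom.prod_apply, map_mul, χ1, χ2, χ3,
      χ4, χ5, χ6, χ7, χ8, χ9, χ10, χ11, χ12]
    rw [eq_top_iff]
    rintro x -
    have hx : ∀ x : ℤˣ × ℤˣ × ℤˣ, ∃ i < 2, ∃ j < 2, ∃ k < 2,
        x = (-1, 1, 1) ^ i * (-1, 1, -1) ^ j * (1, -1, 1) ^ k := by decide +kernel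
    obtain ⟨i, _, j, _, k, _, rfl⟩ := hx x
    refine mul_mem (mul_mem (pow_mem ?_ _) (pow_mem ?_ _)) (pow_mem ?_ _) <;>
      apply Subgroup.subset_closure <;> simp

lemma genrefl {V : Type} (Γ : SimpleGraph V) {u v : V} (h : Γ.Adj u v) :
    IsGenRefl Γ (PresentedGroup.of u * PresentedGroup.of v) := by
  refine ⟨[PresentedGroup.of u, PresentedGroup.of v], by simp, ?_, ?_, by simp⟩
  · intro r hr
    simp only [List.mem_cons, List.not_mem_nil, or_false] at hr
    rcases hr with rfl | rfl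
    · exact ⟨1, u, by simp⟩
    · exact ⟨1, v, by simp⟩
  · simp only [List.pairwise_cons, List.mem_cons, List.not_mem_nil, or_false, forall_eq,
      IsEmpty.forall_iff, implies_true, List.Pairwise.nil, and_true]
    exact ⟨fun e => h.ne (of_inj Γ e), comm_of Γ h⟩

/-- the join of a square (vertices `0, 1, 2, 3`) with a complete graph on `n` vertices -/
def Gam (n : ℕ) : SimpleGraph (Fin (n + 4)) where
  Adj i j := i ≠ j ∧ ¬ (i.val < 2 ∧ j.val < 2) ∧ ¬ (2 ≤ i.val ∧ i.val < 4 ∧ 2 ≤ j.val ∧ j.val < 4)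
  symm := ⟨fun i j h => ⟨h.1.symm, by have := h.2; omega⟩⟩
  loopless := ⟨fun i h => h.1 rfl⟩

theorem result (d : ℕ) : ∃ (n : ℕ) (Γ : SimpleGraph (Fin n)), d ≤ Γ.cliqueNum ∧
    ∃ S : Set (C Γ), (∀ s ∈ S, IsGenRefl Γ s) ∧ ¬ IsRACG (Subgroup.closure S) := by
  classical
  have adj : ∀ (i j : ℕ) (hi : i < d + 4) (hj : j < d + 4), (Gam d).Adj ⟨i, hi⟩ ⟨j, hj⟩ ↔
      i ≠ j ∧ ¬ (i < 2 ∧ j < 2) ∧ ¬ (2 ≤ i ∧ i < 4 ∧ 2 ≤ j ∧ j < 4) := by
    intro i j hi hj
    simp [Gam]
  refine ⟨d + 4, Gam d, ?_, _, ?_, square (Gam d) ⟨0, by omega⟩ ⟨1, by omega⟩ ⟨2, by omega⟩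
    ⟨3, by omega⟩ (by simp) (by simp) (by rw [adj]; omega) (by rw [adj]; omega)
    (by rw [adj]; omega) (by rw [adj]; omega) (by rw [adj]; omega) (by rw [adj]; omega)⟩
  · let e : Fin d ↪ Fin (d + 4) := ⟨fun i => ⟨i.val + 4, by omega⟩, fun i j h => by
      simp only [Fin.mk.injEq] at h; exact Fin.ext (by omega)⟩
    have hc : (Gam d).IsClique (Finset.univ.map e : Finset (Fin (d + 4))) := by
      intro x hx y hy hxy
      simp only [Finset.coe_map, Finset.coe_univ, Set.image_univ, Set.mem_range] at hx hy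
      obtain ⟨i, rfl⟩ := hx
      obtain ⟨j, rfl⟩ := hy
      have h1 : (e i).val = i.val + 4 := rfl
      refine ⟨hxy, ?_, ?_⟩ <;> omega
    have := hc.card_le_cliqueNum
    simpa using this
  · rintro s (rfl | rfl | rfl) <;> apply genrefl <;> rw [adj] <;> omega

end Pool.Agent.Results.MP_6a2cdd_al.Counter
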